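import Pool.Agent.TH144.MB.Hyper

/-!
# Fujita's freeness conjecture for étale quotients by arbitrary diagonal groups

`Y ⊂ P^N` is given by a homogeneous ideal `I`, and a finite group `G` acts by diagonal matrices on
`P^N`, preserving `Y`, freely on `Y`. Let `ω_Y = O(κ)` and `n = dim Y`, and let `Y` be a complete
intersection, or arithmetically Cohen-Macaulay. Let `A_1, …, A_m`, `m ≥ n + 1`, be line bundles on
`X = Y/G` whose pullbacks to `Y` are `O(k_j)`, `k_j ≥ 1`; for example `A_1 = … = A_m = A`. The sections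
of `K_X + A_1 + … + A_m` are the forms of degree `κ + ∑ k_j` on the cone over `Y` on which `G` acts by
a given character `χ`. The theorem says that these sections have no common zero: the bundle
`K_X + A_1 + … + A_m` is globally generated. There is no condition on the order of `G`.

The proof: semi-invariant monomials (`Pool.Agent.TH144.MB.Sit.exists_mono`): by the theorem of
Macaulay, modulo `I` and linear forms without common zeros on `Y` all forms of degree `> κ + n + 1`
vanish, and a relation between the values at the points of an orbit can be moved to degree `κ + n + 1`.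
-/

set_option autoImplicit false

namespace Pool.Agent.Results.MP_9ff3e7_ag.DiagonalQuotients

open MvPolynomial

/-- A homogeneous ideal `I` in `ℂ[x_0, …, x_N]` and an action of `G` on `ℂ^(N+1)` by diagonal
matrices, the `i`-th coordinate being multiplied by the character `α i`. The ideal `I` is
stable under `G`, and no element `g ≠ 1` fixes a line in its zero set. -/
structure DiagonalCover (G : Type) [Group G] (N : ℕ) where
  I : Ideal (MvPolynomial (Fin (N + 1)) ℂ)
  homogeneous : ∀ p ∈ I, ∀ n, homogeneousComponent n p ∈ I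
  α : Fin (N + 1) → G →* ℂˣ
  stable : ∀ (g : G), ∀ p ∈ I, bind₁ (fun i => C (α i g : ℂ) * X i) p ∈ I
  free : ∀ v : Fin (N + 1) → ℂ, v ≠ 0 → (∀ p ∈ I, eval v p = 0) → ∀ (g : G) (μ : ℂ),
    (∀ i, (α i g : ℂ) * v i = μ * v i) → g = 1

/-- the linear form with coefficients `a` -/
noncomputable def linForm {N : ℕ} (a : Fin (N + 1) → ℂ) : MvPolynomial (Fin (N + 1)) ℂ :=
  ∑ i, C (a i) * X i

/-- `I` is generated by `c = N - n` forms of degrees `d j ≥ 1`, and `κ = ∑ d j - (N + 1)`. -/
def CompleteIntersection {N : ℕ} (I : Ideal (MvPolynomial (Fin (N + 1)) ℂ)) (n : ℕ) (κ : ℤ) :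
    Prop :=
  ∃ (c : ℕ) (f : Fin c → MvPolynomial (Fin (N + 1)) ℂ) (d : Fin c → ℕ),
    (∀ j, (f j).IsHomogeneous (d j) ∧ 0 < d j) ∧ I = Ideal.span (Set.range f) ∧
    N = n + c ∧ κ = ∑ j, (d j : ℤ) - (N + 1)

/-- There are `n + 1` linear forms which are a regular sequence modulo `I`, and modulo `I` and these
linear forms there are no nonzero forms of degree `> κ + n + 1`. For the ideal of an arithmetically
Cohen-Macaulay variety of dimension `n` this says that the `a`-invariant is at most `κ`. -/
def CohenMacaulay {N : ℕ} (I : Ideal (MvPolynomial (Fin (N + 1)) ℂ)) (n : ℕ) (κ : ℤ) : Prop :=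
  ∃ a : Fin (n + 1) → Fin (N + 1) → ℂ,
    (∀ i p, linForm (a i) * p ∈ I ⊔ Ideal.span ((fun j => linForm (a j)) '' {j | j < i}) →
      p ∈ I ⊔ Ideal.span ((fun j => linForm (a j)) '' {j | j < i})) ∧
    ∀ t : ℕ, κ + n + 1 < t → ∀ p : MvPolynomial (Fin (N + 1)) ℂ, p.IsHomogeneous t →
      p ∈ I ⊔ Ideal.span (Set.range fun j => linForm (a j))

/-- The forms of degree `e` on which `G` acts by the character `χ`: the sections of the line bundle
on `X = Y/G` given by `e` and `χ`. -/
def Section {G : Type} [Group G] {N : ℕ} (D : DiagonalCover G N) (e : ℕ) (χ : G →* ℂˣ)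
    (F : MvPolynomial (Fin (N + 1)) ℂ) : Prop :=
  F.IsHomogeneous e ∧
    ∀ (g : G) (x : Fin (N + 1) → ℂ), eval (fun i => (D.α i g : ℂ) * x i) F = χ g * eval x F

open Pool.Agent.TH144.MB in
theorem reg_ofFn {N : ℕ} (s : ℕ) : ∀ (a : Fin s → Fin (N + 1) → ℂ)
    (I : Ideal (MvPolynomial (Fin (N + 1)) ℂ)),
    (∀ i p, linForm (a i) * p ∈ I ⊔ Ideal.span ((fun j => linForm (a j)) '' {j | j < i}) →
      p ∈ I ⊔ Ideal.span ((fun j => linForm (a j)) '' {j | j < i})) →
    Reg I ((List.ofFn a).map lin) := by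
  induction s with
  | zero => intro a I _; simp [Reg]
  | succ s ih =>
    intro a I h
    rw [List.ofFn_succ, List.map_cons]
    refine ⟨?_, ih _ _ ?_⟩
    · have h0 := h 0
      have h1 : {j : Fin (s + 1) | j < 0} = ∅ := by
        ext j
        simp
      rw [h1, Set.image_empty, Ideal.span_empty, sup_bot_eq] at h0
      exact h0
    · intro i p
      have h0 := h i.succ p
      have h1 : {j : Fin (s + 1) | j < i.succ} = {0} ∪ Fin.succ '' {j | j < i} := by
        ext j
        refine Fin.cases ?_ (fun j => ?_) j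
        · simp
        · simp [Fin.succ_ne_zero]
      have h2 : I ⊔ Ideal.span ((fun j => linForm (a j)) '' {j | j < i.succ})
          = I ⊔ Ideal.span {lin (a 0)}
            ⊔ Ideal.span ((fun j => linForm (a (Fin.succ j))) '' {j | j < i}) := by
        rw [h1, Set.image_union, Set.image_singleton, Ideal.span_union, ← sup_assoc,
          Set.image_image]
        rfl
      rw [h2] at h0
      exact h0

open Pool.Agent.TH144.MB in
theorem le_ext_ofFn {N : ℕ} (s : ℕ) (a : Fin s → Fin (N + 1) → ℂ)
    (I : Ideal (MvPolynomial (Fin (N + 1)) ℂ)) :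
    I ⊔ Ideal.span (Set.range fun j => linForm (a j)) ≤ ext I ((List.ofFn a).map lin) := by
  have h4 : ∀ (L : List (MvPolynomial (Fin (N + 1)) ℂ))
      (I : Ideal (MvPolynomial (Fin (N + 1)) ℂ)), ∀ f ∈ L, f ∈ ext I L := by
    intro L
    induction L with
    | nil => intro I f hf; simp at hf
    | cons g L ih =>
      intro I f hf
      rw [ext_cons]
      rcases List.mem_cons.1 hf with rfl | hf
      · exact Ideal.mem_sup_right (Ideal.mem_span_singleton_self f)
      · exact Ideal.mem_sup_left (ih I f hf)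
  refine sup_le (le_ext _ _) ?_
  rw [Ideal.span_le]
  rintro _ ⟨j, rfl⟩
  refine h4 _ _ _ (List.mem_map.2 ⟨a j, ?_, rfl⟩)
  rw [List.mem_ofFn]
  exact ⟨j, rfl⟩

/-- Let `G` be a finite group acting diagonally, and freely on the variety `Y` of the ideal `D.I`, of
dimension `n` and with `ω_Y = O(κ)`, `Y` a complete intersection or arithmetically Cohen-Macaulay. For
line bundles `A_j` on `X = Y/G` with pullbacks `O(k j)`, `k j ≥ 1`, and at least `n + 1` in number, the
line bundle `K_X + ∑ A_j`, given by the degree `e = κ + ∑ k j` and a character `χ`, is globally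
generated, and even by semi-invariant monomials. -/
theorem result {G : Type} [Group G] [Finite G] {N : ℕ} (D : DiagonalCover G N) (n : ℕ) (κ : ℤ)
    (hY : CompleteIntersection D.I n κ ∨ CohenMacaulay D.I n κ)
    (m : ℕ) (hm : n + 1 ≤ m) (k : Fin m → ℕ) (hk : ∀ j, 1 ≤ k j)
    (e : ℕ) (he : (e : ℤ) = κ + ∑ j, (k j : ℤ)) (χ : G →* ℂˣ) :
    ∀ y : Fin (N + 1) → ℂ, y ≠ 0 → (∀ p ∈ D.I, eval y p = 0) →
      ∃ μ : Fin (N + 1) →₀ ℕ, Section D e χ (monomial μ 1) ∧ eval y (monomial μ 1) ≠ 0 := by
  classical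
  have _ := Fintype.ofFinite G
  have hmk : (n : ℤ) + 1 ≤ ∑ j, (k j : ℤ) := by
    have h1 : ∑ j : Fin m, (1 : ℤ) ≤ ∑ j, (k j : ℤ) :=
      Finset.sum_le_sum fun j _ => by exact_mod_cast hk j
    rw [Finset.sum_const, Finset.card_univ, Fintype.card_fin, nsmul_eq_mul, mul_one] at h1
    have h2 : ((n : ℤ) + 1) ≤ m := by exact_mod_cast hm
    linarith
  have hst : ∀ v : Fin (N + 1) → ℂ, (∀ p ∈ D.I, eval v p = 0) → ∀ (g : G), ∀ p ∈ D.I,
      eval (Pool.Agent.TH144.MB.mv D.α g v) p = 0 := by
    intro v hv g p hp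
    rw [← Pool.Agent.TH144.MB.eval_act]
    exact hv _ (D.stable g p hp)
  let S : Pool.Agent.TH144.MB.Sit ℂ G (N + 1) :=
    { I := D.I, hom := D.homogeneous, α := D.α, stable := hst, free := D.free }
  intro y hy0 hy
  have key : ∃ ρ, Pool.Agent.TH144.MB.TopBound D.I ρ ∧ ρ ≤ e := by
    rcases hY with ⟨c, f, d, hfd, hI, hN, hκ⟩ | ⟨a, ha, hb⟩
    · refine ⟨∑ j, (d j - 1), ?_, ?_⟩
      · rw [hI]
        exact Pool.Agent.TH144.MB.topBound_forms f d (fun j => (hfd j).1) fun j => (hfd j).2
      · have h1 : ((∑ j, (d j - 1) : ℕ) : ℤ) = ∑ j, (d j : ℤ) - c := by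
          rw [Nat.cast_sum]
          have h2 : ∀ j, ((d j - 1 : ℕ) : ℤ) = (d j : ℤ) - 1 := fun j => by
            have := (hfd j).2
            omega
          simp only [h2]
          rw [Finset.sum_sub_distrib]
          simp
        have h3 : (N : ℤ) = n + c := by exact_mod_cast hN
        have h4 : ((∑ j, (d j - 1) : ℕ) : ℤ) ≤ e := by
          rw [h1, he, hκ, h3]
          linarith
        exact_mod_cast h4
    · rcases lt_or_ge (κ + n + 1) 0 with h0 | h0
      · exfalso
        have h1 := hb 0 (by simpa using h0) 1 (isHomogeneous_one _ _)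
        have h2 : D.I ⊔ Ideal.span (Set.range fun j => linForm (a j))
            ≤ RingHom.ker (eval (fun i => (0 : ℂ) * y i)) := by
          refine sup_le (fun p hp => RingHom.mem_ker.2
            (Pool.Agent.TH144.MB.cone D.homogeneous hy 0 p hp)) ?_
          rw [Ideal.span_le]
          rintro _ ⟨j, rfl⟩
          refine RingHom.mem_ker.2 ?_
          simp [linForm]
        have h3 := RingHom.mem_ker.1 (h2 h1)
        rw [map_one] at h3
        exact one_ne_zero h3
      · refine ⟨(κ + n + 1).toNat, ?_, by omega⟩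
        refine Pool.Agent.TH144.MB.topBound_cm D.homogeneous (List.ofFn a)
          (reg_ofFn (n + 1) a D.I ha) ?_
        intro t ht p hp
        refine le_ext_ofFn (n + 1) a D.I (hb t ?_ p hp)
        omega
  obtain ⟨ρ, hρ, hρe⟩ := key
  obtain ⟨μ, h1, h2, h3⟩ := S.exists_mono hρ hy0 hy χ (t := e) hρe
  have h4 := Pool.Agent.TH144.MB.typ_monomial h2
  rw [h1] at h4
  exact ⟨μ, h4, by rw [Pool.Agent.TH144.MB.eval_mono]; exact h3⟩

end Pool.Agent.Results.MP_9ff3e7_ag.DiagonalQuotients
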