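import Pool.Agent.Q86.WF5

/-!
# Fujita's freeness conjecture for weighted complete intersections with pairwise coprime weights

Let `X ⊂ P(a_0, ..., a_N)` be a weighted complete intersection of degrees `d_1, ..., d_c`, of any
codimension `c` and with arbitrary singularities, such that `O(1)` is invertible on `X`, and suppose
that the weights are pairwise coprime. The dimension of `X` is `N - c` and `K_X = O(∑ d_j - ∑ a_i)`.
We show that `K_X + A_1 + ... + A_m` is globally generated for all `m ≥ dim X + 1` and `A_j = O(k_j)`,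
`k_j ≥ 1`.

Proof: `X` does not contain the vertex `e_i` if `a_i ≥ 2`. So some equation, of degree `s_i a_i`,
contains `x_i ^ s_i`. If the same equation serves two nonzero coordinates of the point `v`, the number
`E = ∑ (d_j - 1) - ∑ (a_i - 1)` is at least `(a_i - 1) (a_l - 1)`. If not, `E ≥ ∑ (s_l - 1) (a_l - 1)`
(sum over the nonzero coordinates), and as the equations vanish at `v`, there are relations
`t a_l ∈ ⟨a_i : i ≠ l⟩` with `1 ≤ t ≤ s_l`. Then every number `≥ ∑ (s_l - 1) (a_l - 1)` is in the
semigroup of the weights of the nonzero coordinates. For the proof of this, let `c_l` be the least such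
`t` and restrict to a minimal set of generators closed under chosen relations; in it every generator
leads to a given one, `a_k`, and by rewriting the elements of the Apéry set of `a_k` are
`≤ ∑_{l ≠ k} (c_l - 1) a_l`; moreover `∑_{l ≠ k} (c_l - 1) ≤ a_k - 1`, since the `j a_l`, `1 ≤ j < c_l`,
are different and not zero modulo `a_k`.
-/

set_option autoImplicit false

open MvPolynomial

namespace Pool.Agent.Results.MP_9ff3e7_ag.PairwiseCoprimeWeights

/-- The points of the affine cone over `X = {f_1 = ... = f_c = 0}` different from the origin. -/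
def punctured {N c : ℕ} (f : Fin c → MvPolynomial (Fin (N + 1)) ℂ) : Set (Fin (N + 1) → ℂ) :=
  {v | v ≠ 0 ∧ ∀ j, eval v (f j) = 0}

/-- `O(1)` is invertible on `X`: at every point of `X` the weights of the nonzero coordinates have
no common divisor, so that the action of the torus on the punctured cone over `X` has trivial
stabilisers. -/
def IsInvertible {N c : ℕ} (a : Fin (N + 1) → ℕ) (f : Fin c → MvPolynomial (Fin (N + 1)) ℂ) : Prop :=
  ∀ v ∈ punctured f, ∀ g : ℕ, (∀ i, v i ≠ 0 → g ∣ a i) → g = 1

/-- Let `X` be a weighted complete intersection of degrees `d_1, ..., d_c` in `P(a_0, ..., a_N)`, of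
dimension `N - c`, with pairwise coprime weights and such that `O(1)` is invertible on `X`. Let
`m ≥ dim X + 1`, `k_1, ..., k_m ≥ 1` and `e = ∑ d_j - ∑ a_i + ∑ k_j`, so that
`K_X + O(k_1) + ... + O(k_m) = O(e)`. Then for every point of `X` there is a form of weighted degree
`e`, a section of `O(e)`, which does not vanish there. -/
theorem result (N c : ℕ) (a : Fin (N + 1) → ℕ) (ha : ∀ i, 0 < a i)
    (hcop : ∀ i j, i ≠ j → Nat.Coprime (a i) (a j)) (d : Fin c → ℕ) (hd : ∀ j, 0 < d j)
    (f : Fin c → MvPolynomial (Fin (N + 1)) ℂ) (hf : ∀ j, IsWeightedHomogeneous a (f j) (d j))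
    (hX : IsInvertible a f) (m : ℕ) (k : Fin m → ℕ) (hk : ∀ j, 1 ≤ k j) (hm : N + 1 ≤ m + c) (e : ℕ)
    (he : (e : ℤ) = ∑ j, (d j : ℤ) - ∑ i, (a i : ℤ) + ∑ j, (k j : ℤ)) :
    ∀ v ∈ punctured f,
      ∃ s : MvPolynomial (Fin (N + 1)) ℂ, IsWeightedHomogeneous a s e ∧ eval v s ≠ 0 := by
  rintro v ⟨hv0, hv⟩
  refine Pool.Agent.Q86.WF.freeness_coprime ha hcop d hd f hf
    (fun w hw0 hw g hg => hX w ⟨hw0, hw⟩ g hg) e ?_ v hv0 hv
  have h1 : m ≤ ∑ j, k j := by
    calc m = ∑ _j : Fin m, 1 := by simp
      _ ≤ ∑ j, k j := Finset.sum_le_sum fun j _ => hk j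
  have h2 : (e : ℤ) + ((∑ i, a i : ℕ) : ℤ) = ((∑ j, d j : ℕ) : ℤ) + ((∑ j, k j : ℕ) : ℤ) := by
    push_cast
    linarith
  have h3 : e + ∑ i, a i = ∑ j, d j + ∑ j, k j := by exact_mod_cast h2
  omega

end Pool.Agent.Results.MP_9ff3e7_ag.PairwiseCoprimeWeights
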