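import Pool.Agent.Q86.WF3

/-!
# Fujita's freeness conjecture for weighted complete intersections of codimension two

Let `X ⊂ P(a_0, ..., a_N)` be a complete intersection of two hypersurfaces of degrees `d_1`, `d_2` in
a weighted projective space, with arbitrary singularities, such that `O(1)` is invertible on `X`. Its
dimension is `N - 2` and `K_X = O(d_1 + d_2 - ∑ a_i)`. We show that `K_X + A_1 + ... + A_m` is globally
generated for all `m ≥ dim X + 1` and `A_j = O(k_j)`, `k_j ≥ 1`.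

Proof: as `X` does not meet the strata `{x_i = 0 : h ∤ a_i}`, every `h ≥ 2` divides at most as many
weights as degrees. Hence, by `n - 1 = ∑ φ(h)` (sum over the divisors `h ≥ 2` of `n`), one has
`∑ (a_i - 1) ≤ (d_1 - 1) + (d_2 - 1)`. For three weights `a, b, c` such that `a` and `b` divide `d_1`,
the pair remains regular if `a, b, c` are replaced by `lcm (a, b)` and `gcd (a, b) c`; so the number
`E = (d_1 - 1) + (d_2 - 1) - ∑ (a_i - 1)` exceeds the Frobenius number of `a, b, c`. Points with only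
two nonzero coordinates are treated in the same way, using that they are not vertices.
-/

set_option autoImplicit false

open MvPolynomial

namespace Pool.Agent.Results.MP_9ff3e7_ag.WeightedCodimensionTwo

/-- The points of the affine cone over `X = {f₁ = f₂ = 0}` different from the origin. -/
def punctured {N : ℕ} (f₁ f₂ : MvPolynomial (Fin (N + 1)) ℂ) : Set (Fin (N + 1) → ℂ) :=
  {v | v ≠ 0 ∧ eval v f₁ = 0 ∧ eval v f₂ = 0}

/-- `O(1)` is invertible on `X`: at every point of `X` the weights of the nonzero coordinates have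
no common divisor, so that the action of the torus on the punctured cone over `X` has trivial
stabilisers. -/
def IsInvertible {N : ℕ} (a : Fin (N + 1) → ℕ) (f₁ f₂ : MvPolynomial (Fin (N + 1)) ℂ) : Prop :=
  ∀ v ∈ punctured f₁ f₂, ∀ g : ℕ, (∀ i, v i ≠ 0 → g ∣ a i) → g = 1

/-- Let `X` be a weighted complete intersection of degrees `d₁`, `d₂` in `P(a_0, ..., a_N)`, of
dimension `N - 2`, such that `O(1)` is invertible on `X`. Let `m ≥ dim X + 1`, `k_1, ..., k_m ≥ 1` and
`e = d₁ + d₂ - ∑ a_i + ∑ k_j`, so that `K_X + O(k_1) + ... + O(k_m) = O(e)`. Then for every point of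
`X` there is a form of weighted degree `e`, a section of `O(e)`, which does not vanish there. -/
theorem result (N : ℕ) (a : Fin (N + 1) → ℕ) (ha : ∀ i, 0 < a i) (d₁ d₂ : ℕ) (hd₁ : 0 < d₁)
    (hd₂ : 0 < d₂) (f₁ f₂ : MvPolynomial (Fin (N + 1)) ℂ) (hf₁ : IsWeightedHomogeneous a f₁ d₁)
    (hf₂ : IsWeightedHomogeneous a f₂ d₂) (hX : IsInvertible a f₁ f₂) (m : ℕ) (k : Fin m → ℕ)
    (hk : ∀ j, 1 ≤ k j) (hm : N ≤ m + 1) (e : ℕ)
    (he : (e : ℤ) = d₁ + d₂ - ∑ i, (a i : ℤ) + ∑ j, (k j : ℤ)) :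
    ∀ v ∈ punctured f₁ f₂,
      ∃ s : MvPolynomial (Fin (N + 1)) ℂ, IsWeightedHomogeneous a s e ∧ eval v s ≠ 0 := by
  rintro v ⟨hv0, hv1, hv2⟩
  refine Pool.Agent.Q86.WF.freeness ha hd₁ hd₂ hf₁ hf₂
    (fun w hw0 hw1 hw2 g hg => hX w ⟨hw0, hw1, hw2⟩ g hg) e ?_ v hv0 hv1 hv2
  have h1 : m ≤ ∑ j, k j := by
    calc m = ∑ _j : Fin m, 1 := by simp
      _ ≤ ∑ j, k j := Finset.sum_le_sum fun j _ => hk j
  have h2 : (e : ℤ) + ((∑ i, a i : ℕ) : ℤ) = d₁ + d₂ + ((∑ j, k j : ℕ) : ℤ) := by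
    push_cast
    linarith
  have h3 : e + ∑ i, a i = d₁ + d₂ + ∑ j, k j := by exact_mod_cast h2
  omega

end Pool.Agent.Results.MP_9ff3e7_ag.WeightedCodimensionTwo
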